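import Mathlib
import Pool.Agent.H537R6.T_DEN

set_option autoImplicit false

/-!
Rational roots of compositions of sparse integer polynomials: heights of the intermediate values.
-/

namespace Pool.Agent.TH835.Tau

open Polynomial Finset

/-- The compositions `F 0 = X`, `F (k + 1) = h k ∘ F k`. -/
noncomputable def F (h : ℕ → ℤ[X]) : ℕ → ℤ[X]
  | 0 => X
  | k + 1 => (h k).comp (F h k)

lemma aeval_sum (h : ℤ[X]) (z : ℚ) :
    aeval z h = ∑ i ∈ range (h.natDegree + 1), (h.coeff i : ℚ) * z ^ i := by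
  rw [aeval_eq_sum_range]
  refine Finset.sum_congr rfl fun i _ => ?_
  rw [zsmul_eq_mul]

/-- large values never become smaller -/
lemma esc {b : ℕ} {h : ℤ[X]} (hd : 2 ≤ h.natDegree) (hc : ∀ i, |h.coeff i| ≤ 2 ^ b) (z : ℚ)
    (hz : 2 * 2 ^ b + 1 ≤ |z|) : |z| ≤ |aeval z h| := by
  obtain ⟨d, hdd⟩ : ∃ d, h.natDegree = d + 2 := ⟨h.natDegree - 2, by omega⟩
  have hB : (1 : ℚ) ≤ 2 ^ b := one_le_pow₀ (by norm_num)
  have hz1 : (1 : ℚ) ≤ |z| := by linarith
  rw [aeval_sum, hdd, Finset.sum_range_succ]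
  set s := ∑ i ∈ range (d + 2), |z| ^ i with hs
  have hgeom : s * (|z| - 1) = |z| ^ (d + 2) - 1 := geom_sum_mul _ _
  have hs0 : 0 ≤ s := Finset.sum_nonneg fun i _ => by positivity
  have hsum : |∑ i ∈ range (d + 2), ((h.coeff i : ℤ) : ℚ) * z ^ i| ≤ 2 ^ b * s := by
    calc |∑ i ∈ range (d + 2), ((h.coeff i : ℤ) : ℚ) * z ^ i|
        ≤ ∑ i ∈ range (d + 2), |((h.coeff i : ℤ) : ℚ) * z ^ i| := Finset.abs_sum_le_sum_abs _ _
      _ ≤ ∑ i ∈ range (d + 2), 2 ^ b * |z| ^ i := by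
          refine Finset.sum_le_sum fun i _ => ?_
          rw [abs_mul, abs_pow]
          have h1 : |((h.coeff i : ℤ) : ℚ)| ≤ 2 ^ b := by
            rw [← Int.cast_abs]
            exact_mod_cast hc i
          exact mul_le_mul_of_nonneg_right h1 (by positivity)
      _ = 2 ^ b * s := by rw [hs, Finset.mul_sum]
  have hlead : (1 : ℚ) ≤ |((h.coeff (d + 2) : ℤ) : ℚ)| := by
    have h0 : h.coeff (d + 2) ≠ 0 := by
      have hh : h ≠ 0 := by
        rintro rfl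
        simp at hd
      rw [← hdd]
      exact leadingCoeff_ne_zero.2 hh
    rw [← Int.cast_abs]
    exact_mod_cast Int.one_le_abs h0
  have h1 : |z| ^ (d + 2) ≤ |((h.coeff (d + 2) : ℤ) : ℚ) * z ^ (d + 2)| := by
    rw [abs_mul, abs_pow]
    have : 0 ≤ |z| ^ (d + 2) := by positivity
    nlinarith
  have h2 := abs_add_le ((∑ i ∈ range (d + 2), ((h.coeff i : ℤ) : ℚ) * z ^ i) +
      ((h.coeff (d + 2) : ℤ) : ℚ) * z ^ (d + 2))
      (-(∑ i ∈ range (d + 2), ((h.coeff i : ℤ) : ℚ) * z ^ i))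
  rw [abs_neg, add_neg_cancel_comm] at h2
  have h3 : |z| ^ 2 ≤ |z| ^ (d + 2) := pow_le_pow_right₀ hz1 (by omega)
  have h4 : 2 * (2 ^ b * s) ≤ |z| ^ (d + 2) - 1 := by
    rw [← hgeom]
    nlinarith
  nlinarith [sq_nonneg (|z| - 1)]

lemma G_one (h : ℤ[X]) (z : ℚ) : (Pool.Agent.H537R6.G h 1).eval z = aeval z h := by
  unfold Pool.Agent.H537R6.G
  rw [eval_mul, eval_C, eval_map, aeval_def]
  simp

/-- one step down: denominators -/
lemma den_step {b : ℕ} {h : ℤ[X]} (hd : 2 ≤ h.natDegree) (hc : ∀ i, |h.coeff i| ≤ 2 ^ b) (z : ℚ)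
    (hz : (aeval z h).den ≤ 2 ^ (2 * b)) : z.den ≤ 2 ^ (2 * b) := by
  have h1 := Pool.Agent.H537R6.t_DEN h 1 z hd le_rfl
  rw [G_one] at h1
  have hlc : h.leadingCoeff ≠ 0 := by
    rw [leadingCoeff_ne_zero]
    rintro rfl
    simp at hd
  have hpos : 0 < h.leadingCoeff.natAbs ^ 2 * (aeval z h).den := by
    have := Int.natAbs_pos.2 hlc
    have := (aeval z h).den_pos
    positivity
  have h2 := Nat.le_of_dvd hpos h1
  have h3 : h.leadingCoeff.natAbs ≤ 2 ^ b := by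
    have := hc h.natDegree
    zify
    exact this
  have h4 : z.den ^ 2 ≤ (2 ^ (2 * b)) ^ 2 := by
    refine h2.trans ?_
    calc h.leadingCoeff.natAbs ^ 2 * (aeval z h).den ≤ (2 ^ b) ^ 2 * 2 ^ (2 * b) :=
          Nat.mul_le_mul (Nat.pow_le_pow_left h3 2) hz
      _ = (2 ^ (2 * b)) ^ 2 := by ring
  exact (Nat.pow_le_pow_iff_left (by norm_num)).1 h4

/-- numerator and denominator at most `2 ^ m` -/
def Ht (m : ℕ) (x : ℚ) : Prop := x.num.natAbs ≤ 2 ^ m ∧ x.den ≤ 2 ^ m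

lemma aeval_F_succ (h : ℕ → ℤ[X]) (k : ℕ) (x : ℚ) :
    aeval x (F h (k + 1)) = aeval (aeval x (F h k)) (h k) := by
  rw [F, aeval_comp]

/-- the intermediate values at a root have small height -/
lemma heights {n b : ℕ} {h : ℕ → ℤ[X]} (hd : ∀ j < n, 2 ≤ (h j).natDegree)
    (hc : ∀ j < n, ∀ i, |(h j).coeff i| ≤ 2 ^ b) (x : ℚ) (hx : aeval x (F h n) = 0) :
    ∀ k ≤ n, (aeval x (F h k)).den ≤ 2 ^ (2 * b) ∧ (aeval x (F h k)).num.natAbs ≤ 2 ^ (3 * b + 2) := by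
  have hmain : ∀ i ≤ n, (aeval x (F h (n - i))).den ≤ 2 ^ (2 * b) ∧
      |aeval x (F h (n - i))| < 2 * 2 ^ b + 1 := by
    intro i
    induction i with
    | zero =>
      intro _
      rw [Nat.sub_zero, hx]
      refine ⟨?_, ?_⟩
      · simp [Nat.one_le_two_pow]
      · rw [abs_zero]; positivity
    | succ i ih =>
      intro hi
      obtain ⟨h1, h2⟩ := ih (by omega)
      have e : n - i = (n - (i + 1)) + 1 := by omega
      rw [e, aeval_F_succ] at h1 h2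
      refine ⟨den_step (hd _ (by omega)) (hc _ (by omega)) _ h1, ?_⟩
      by_contra hcon
      push Not at hcon
      have := esc (hd (n - (i + 1)) (by omega)) (hc _ (by omega)) _ hcon
      linarith
  intro k hk
  obtain ⟨h1, h2⟩ := hmain (n - k) (by omega)
  rw [Nat.sub_sub_self hk] at h1 h2
  refine ⟨h1, ?_⟩
  set z := aeval x (F h k) with hz
  have h3 : (z.num.natAbs : ℚ) = |z| * z.den := by
    have : z * z.den = z.num := Rat.mul_den_eq_num z
    rw [← Nat.abs_cast z.den, ← abs_mul, this, ← Int.cast_abs, Int.abs_eq_natAbs]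
    simp
  have h4 : (z.num.natAbs : ℚ) ≤ 2 ^ (3 * b + 2) := by
    rw [h3]
    have hB : (1 : ℚ) ≤ 2 ^ b := one_le_pow₀ (by norm_num)
    have h5 : |z| ≤ 4 * 2 ^ b := by linarith
    have h6 : (z.den : ℚ) ≤ 2 ^ (2 * b) := by exact_mod_cast h1
    calc |z| * z.den ≤ (4 * 2 ^ b) * 2 ^ (2 * b) :=
          mul_le_mul h5 h6 (by positivity) (by positivity)
      _ = 2 ^ (3 * b + 2) := by ring
  exact_mod_cast h4

end Pool.Agent.TH835.Tau
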