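import Mathlib

set_option autoImplicit false

/-!
The gap lemma: a rational number `z ≠ 0, 1, -1` at which `X ^ e q + r` has a value of small height is
a root of `q`, if the degree of `r` is much smaller than `e`.
-/

namespace Pool.Agent.TH835.Tau

open Polynomial Finset

/-- the homogenised value -/
def hom (p : ℤ[X]) (N : ℕ) (u v : ℤ) : ℤ := ∑ i ∈ range (N + 1), p.coeff i * u ^ i * v ^ (N - i)

lemma hom_eq (p : ℤ[X]) (N : ℕ) (hN : p.natDegree ≤ N) (z : ℚ) :
    ((hom p N z.num z.den : ℤ) : ℚ) = (z.den : ℚ) ^ N * aeval z p := by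
  have hv : z * (z.den : ℚ) = (z.num : ℚ) := Rat.mul_den_eq_num z
  rw [aeval_eq_sum_range' (Nat.lt_succ_of_le hN), hom, Finset.mul_sum]
  push_cast
  refine Finset.sum_congr rfl fun i hi => ?_
  rw [mem_range] at hi
  rw [zsmul_eq_mul, ← hv, mul_pow]
  have : (z.den : ℚ) ^ N = (z.den : ℚ) ^ i * (z.den : ℚ) ^ (N - i) := by
    rw [← pow_add]; congr 1; omega
  rw [this]
  ring

lemma hom_le (p : ℤ[X]) (N : ℕ) (u v : ℤ) (H : ℕ) (hu : u.natAbs ≤ H) (hv : v.natAbs ≤ H) (W : ℕ)
    (hW : ∑ i ∈ range (N + 1), (p.coeff i).natAbs ≤ W) : (hom p N u v).natAbs ≤ W * H ^ N := by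
  calc (hom p N u v).natAbs ≤ ∑ i ∈ range (N + 1), (p.coeff i * u ^ i * v ^ (N - i)).natAbs :=
        Int.natAbs_sum_le _ _
    _ ≤ ∑ i ∈ range (N + 1), (p.coeff i).natAbs * H ^ N := by
        refine Finset.sum_le_sum fun i hi => ?_
        rw [mem_range] at hi
        rw [Int.natAbs_mul, Int.natAbs_mul, Int.natAbs_pow, Int.natAbs_pow, mul_assoc]
        apply Nat.mul_le_mul_left
        calc u.natAbs ^ i * v.natAbs ^ (N - i) ≤ H ^ i * H ^ (N - i) :=
              Nat.mul_le_mul (Nat.pow_le_pow_left hu _) (Nat.pow_le_pow_left hv _)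
          _ = H ^ N := by rw [← pow_add]; congr 1; omega
    _ = (∑ i ∈ range (N + 1), (p.coeff i).natAbs) * H ^ N := by rw [Finset.sum_mul]
    _ ≤ W * H ^ N := Nat.mul_le_mul_right _ hW

theorem gap (q r : ℤ[X]) (e g W : ℕ) (hg : g ≤ e) (hr : r.natDegree ≤ e - g)
    (hWq : ∑ i ∈ range (q.natDegree + 1), (q.coeff i).natAbs ≤ W)
    (hWr : ∑ i ∈ range (e - g + 1), (r.coeff i).natAbs ≤ W) (z : ℚ) (h0 : z ≠ 0) (h1 : z ≠ 1)
    (h2 : z ≠ -1)
    (hsmall : (aeval z (X ^ e * q + r)).num.natAbs + (aeval z (X ^ e * q + r)).den * W < 2 ^ g) :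
    aeval z q = 0 := by
  by_contra hq
  set y := aeval z (X ^ e * q + r) with hy
  set u : ℤ := z.num with hu
  set v : ℤ := (z.den : ℤ) with hv
  set δ := q.natDegree with hδ
  set ρ := e - g with hρ
  set a : ℤ := y.num with ha
  set w : ℤ := (y.den : ℤ) with hw
  set Q := hom q δ u v with hQ
  set R0 := hom r ρ u v with hR0
  have hvpos : 0 < z.den := z.den_pos
  have hwpos : 0 < y.den := y.den_pos
  have hzv : z * (z.den : ℚ) = (z.num : ℚ) := Rat.mul_den_eq_num z
  have hyw : y * (y.den : ℚ) = (y.num : ℚ) := Rat.mul_den_eq_num y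
  have hQe : ((Q : ℤ) : ℚ) = (z.den : ℚ) ^ δ * aeval z q := hom_eq q δ le_rfl z
  have hRe : ((R0 : ℤ) : ℚ) = (z.den : ℚ) ^ ρ * aeval z r := hom_eq r ρ hr z
  have hyval : y = z ^ e * aeval z q + aeval z r := by
    rw [hy]; simp
  have hu0 : u ≠ 0 := by
    rw [hu]; exact Rat.num_ne_zero.2 h0
  have hQ0 : Q ≠ 0 := by
    intro hQz
    rw [hQz] at hQe
    have : (z.den : ℚ) ^ δ ≠ 0 := by positivity
    rcases mul_eq_zero.1 (hQe.symm.trans (by simp)) with h | h
    · exact this h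
    · exact hq h
  have heδ : e + δ = (e + δ - ρ) + ρ := by omega
  -- the main identity
  have hid : w * u ^ e * Q = v ^ (e + δ - ρ) * (a * v ^ ρ - w * R0) := by
    have : ((w * u ^ e * Q : ℤ) : ℚ) = ((v ^ (e + δ - ρ) * (a * v ^ ρ - w * R0) : ℤ) : ℚ) := by
      push_cast
      rw [hQe, hRe]
      have hvq : (v : ℚ) = (z.den : ℚ) := by rw [hv, Int.cast_natCast]
      have hwq : (w : ℚ) = (y.den : ℚ) := by rw [hw, Int.cast_natCast]
      have huq : (u : ℚ) = z * (z.den : ℚ) := by rw [hu, hzv]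
      have haq : (a : ℚ) = y * (y.den : ℚ) := by rw [ha, hyw]
      rw [hvq, hwq, huq, haq, mul_pow]
      have e1 : (z.den : ℚ) ^ (e + δ - ρ) * (z.den : ℚ) ^ ρ = (z.den : ℚ) ^ e * (z.den : ℚ) ^ δ := by
        rw [← pow_add, ← pow_add, ← heδ]
      have e2 : (z.den : ℚ) ^ (e + δ - ρ) * (y * (y.den : ℚ) * (z.den : ℚ) ^ ρ -
          (y.den : ℚ) * ((z.den : ℚ) ^ ρ * aeval z r)) =
          ((z.den : ℚ) ^ (e + δ - ρ) * (z.den : ℚ) ^ ρ) * ((y.den : ℚ) * (y - aeval z r)) := by
        ring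
      rw [e2, e1]
      have e3 : y - aeval z r = z ^ e * aeval z q := by rw [hyval]; ring
      rw [e3]
      ring
    exact_mod_cast this
  have hcop : IsCoprime u v := by
    rw [hu, hv, Int.isCoprime_iff_gcd_eq_one]
    exact z.reduced
  set R := a * v ^ ρ - w * R0 with hR
  have hRne : R ≠ 0 := by
    intro hRz
    rw [hRz, mul_zero] at hid
    have hw0 : w ≠ 0 := by rw [hw]; exact_mod_cast hwpos.ne'
    exact (mul_ne_zero (mul_ne_zero hw0 (pow_ne_zero _ hu0)) hQ0) hid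
  have hdvd1 : u ^ e ∣ R := by
    have h3 : u ^ e ∣ v ^ (e + δ - ρ) * R := ⟨w * Q, by rw [← hid]; ring⟩
    exact (hcop.pow).dvd_of_dvd_mul_left h3
  have hdvd2 : v ^ (e + δ - ρ) ∣ w * Q := by
    have h3 : v ^ (e + δ - ρ) ∣ u ^ e * (w * Q) := ⟨R, by rw [← hid]; ring⟩
    exact (hcop.symm.pow).dvd_of_dvd_mul_left h3
  have hle1 : u.natAbs ^ e ≤ R.natAbs := by
    rw [← Int.natAbs_pow]
    exact Nat.le_of_dvd (Int.natAbs_pos.2 hRne) (Int.natAbs_dvd_natAbs.2 hdvd1)
  have hwQ0 : w * Q ≠ 0 := mul_ne_zero (by rw [hw]; exact_mod_cast hwpos.ne') hQ0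
  have hle2 : z.den ^ (e + δ - ρ) ≤ y.den * Q.natAbs := by
    have h3 := Nat.le_of_dvd (Int.natAbs_pos.2 hwQ0) (Int.natAbs_dvd_natAbs.2 hdvd2)
    rw [Int.natAbs_pow, Int.natAbs_mul, hv, hw, Int.natAbs_natCast, Int.natAbs_natCast] at h3
    exact h3
  have heg : e = ρ + g := by omega
  rcases le_or_gt u.natAbs z.den with hcase | hcase
  · -- the denominator is the height
    have hv2 : 2 ≤ z.den := by
      by_contra hlt
      have hv1 : z.den = 1 := by omega
      rw [hv1] at hcase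
      have hu1 : u.natAbs = 1 := by
        have := Int.natAbs_pos.2 hu0
        omega
      have hzu : z = u := by
        have := hzv
        rw [hv1] at this
        push_cast at this
        rw [mul_one] at this
        exact this
      rcases Int.natAbs_eq u with h | h
      · rw [hu1] at h
        apply h1; rw [hzu, h]; norm_num
      · rw [hu1] at h
        apply h2; rw [hzu, h]; norm_num
    have hQle : Q.natAbs ≤ W * z.den ^ δ :=
      hom_le q δ u v z.den hcase (by rw [hv, Int.natAbs_natCast]) W hWq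
    have h5 : z.den ^ (g + δ) ≤ (y.den * W) * z.den ^ δ := by
      have : e + δ - ρ = g + δ := by omega
      rw [this] at hle2
      calc z.den ^ (g + δ) ≤ y.den * Q.natAbs := hle2
        _ ≤ y.den * (W * z.den ^ δ) := Nat.mul_le_mul_left _ hQle
        _ = (y.den * W) * z.den ^ δ := by ring
    rw [pow_add] at h5
    have h6 : z.den ^ g ≤ y.den * W := Nat.le_of_mul_le_mul_right h5 (by positivity)
    have h7 : 2 ^ g ≤ z.den ^ g := Nat.pow_le_pow_left hv2 g
    omega
  · -- the numerator is the height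
    have hu2 : 2 ≤ u.natAbs := by omega
    have hRle : R.natAbs ≤ (a.natAbs + y.den * W) * u.natAbs ^ ρ := by
      have hR0le : R0.natAbs ≤ W * u.natAbs ^ ρ :=
        hom_le r ρ u v u.natAbs le_rfl (by rw [hv, Int.natAbs_natCast]; exact hcase.le) W hWr
      calc R.natAbs ≤ (a * v ^ ρ).natAbs + (w * R0).natAbs := Int.natAbs_sub_le _ _
        _ = a.natAbs * z.den ^ ρ + y.den * R0.natAbs := by
            rw [Int.natAbs_mul, Int.natAbs_mul, Int.natAbs_pow, hv, hw, Int.natAbs_natCast,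
              Int.natAbs_natCast]
        _ ≤ a.natAbs * u.natAbs ^ ρ + y.den * (W * u.natAbs ^ ρ) :=
            Nat.add_le_add (Nat.mul_le_mul_left _ (Nat.pow_le_pow_left hcase.le _))
              (Nat.mul_le_mul_left _ hR0le)
        _ = _ := by ring
    have h5 : u.natAbs ^ g * u.natAbs ^ ρ ≤ (a.natAbs + y.den * W) * u.natAbs ^ ρ := by
      rw [← pow_add, add_comm g ρ, ← heg]
      exact hle1.trans hRle
    have h6 := Nat.le_of_mul_le_mul_right h5 (by positivity)
    have h7 : 2 ^ g ≤ u.natAbs ^ g := Nat.pow_le_pow_left hu2 g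
    omega

end Pool.Agent.TH835.Tau
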