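import Mathlib
import Pool.Agent.TH835.Tau.Esc
import Pool.Agent.TH835.Tau.Gap

set_option autoImplicit false

/-!
Formulas whose intermediate values have small height, and the application of the theorem on long
heights.
-/

namespace Pool.Agent.TH835.Tau

open Polynomial Finset

/-- formulas all of whose intermediate results satisfy `P` -/
inductive Form (P : ℤ[X] → Prop) : ℤ[X] → Prop
  | var : P X → Form P X
  | const (a : ℤ) : P (C a) → Form P (C a)
  | add (f g : ℤ[X]) : Form P f → Form P g → P (f + g) → Form P (f + g)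
  | mul (f g : ℤ[X]) : Form P f → Form P g → P (f * g) → Form P (f * g)

/-- straight-line programs -/
def IsProg (L : ℕ) (g : ℕ → ℤ[X]) : Prop :=
  ∀ k ≤ L, g k = X ∨ (∃ a : ℤ, g k = C a) ∨
      ∃ i < k, ∃ j < k, g k = g i + g j ∨ g k = g i - g j ∨ g k = g i * g j

/-- concatenation of two programs and one more element -/
noncomputable def cat (L₁ L₂ : ℕ) (g₁ g₂ : ℕ → ℤ[X]) (f : ℤ[X]) (k : ℕ) : ℤ[X] :=
  if k ≤ L₁ then g₁ k else if k ≤ L₁ + 1 + L₂ then g₂ (k - (L₁ + 1)) else f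

lemma cat_spec {P : ℤ[X] → Prop} {L₁ L₂ : ℕ} {g₁ g₂ : ℕ → ℤ[X]} {f : ℤ[X]}
    (h₁ : IsProg L₁ g₁) (h₂ : IsProg L₂ g₂) (p₁ : ∀ k ≤ L₁, P (g₁ k)) (p₂ : ∀ k ≤ L₂, P (g₂ k))
    (hf : f = g₁ L₁ + g₂ L₂ ∨ f = g₁ L₁ - g₂ L₂ ∨ f = g₁ L₁ * g₂ L₂) (pf : P f) :
    IsProg (L₁ + 1 + L₂ + 1) (cat L₁ L₂ g₁ g₂ f) ∧
      cat L₁ L₂ g₁ g₂ f (L₁ + 1 + L₂ + 1) = f ∧
      ∀ k ≤ L₁ + 1 + L₂ + 1, P (cat L₁ L₂ g₁ g₂ f k) := by
  have c1 : ∀ k ≤ L₁, cat L₁ L₂ g₁ g₂ f k = g₁ k := by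
    intro k hk
    unfold cat
    rw [if_pos hk]
  have c2 : ∀ k ≤ L₂, cat L₁ L₂ g₁ g₂ f (k + (L₁ + 1)) = g₂ k := by
    intro k hk
    unfold cat
    rw [if_neg (by omega), if_pos (by omega), Nat.add_sub_cancel]
  have c3 : cat L₁ L₂ g₁ g₂ f (L₁ + 1 + L₂ + 1) = f := by
    unfold cat
    rw [if_neg (by omega), if_neg (by omega)]
  refine ⟨?_, c3, ?_⟩
  · intro k hk
    rcases Nat.lt_or_ge L₁ k with h | h
    · rcases Nat.lt_or_ge (L₁ + 1 + L₂) k with h' | h'
      · have hk' : k = L₁ + 1 + L₂ + 1 := by omega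
        rw [hk', c3]
        refine Or.inr (Or.inr ⟨L₁, by omega, L₂ + (L₁ + 1), by omega, ?_⟩)
        rw [c1 L₁ le_rfl, c2 L₂ le_rfl]
        exact hf
      · obtain ⟨l, rfl⟩ : ∃ l, k = l + (L₁ + 1) := ⟨k - (L₁ + 1), by omega⟩
        rw [c2 l (by omega)]
        rcases h₂ l (by omega) with h3 | ⟨a, h3⟩ | ⟨i, hi, j, hj, h3⟩
        · exact Or.inl h3
        · exact Or.inr (Or.inl ⟨a, h3⟩)
        · refine Or.inr (Or.inr ⟨i + (L₁ + 1), by omega, j + (L₁ + 1), by omega, ?_⟩)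
          rw [c2 i (by omega), c2 j (by omega)]
          exact h3
    · rw [c1 k h]
      rcases h₁ k h with h3 | ⟨a, h3⟩ | ⟨i, hi, j, hj, h3⟩
      · exact Or.inl h3
      · exact Or.inr (Or.inl ⟨a, h3⟩)
      · refine Or.inr (Or.inr ⟨i, hi, j, hj, ?_⟩)
        rw [c1 i (by omega), c1 j (by omega)]
        exact h3
  · intro k hk
    rcases Nat.lt_or_ge L₁ k with h | h
    · rcases Nat.lt_or_ge (L₁ + 1 + L₂) k with h' | h'
      · have hk' : k = L₁ + 1 + L₂ + 1 := by omega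
        rw [hk', c3]
        exact pf
      · obtain ⟨l, rfl⟩ : ∃ l, k = l + (L₁ + 1) := ⟨k - (L₁ + 1), by omega⟩
        rw [c2 l (by omega)]
        exact p₂ l (by omega)
    · rw [c1 k h]
      exact p₁ k h

lemma form_prog {P : ℤ[X] → Prop} {f : ℤ[X]} (hf : Form P f) :
    ∃ (L : ℕ) (g : ℕ → ℤ[X]), IsProg L g ∧ g L = f ∧ ∀ k ≤ L, P (g k) := by
  induction hf with
  | var h => exact ⟨0, fun _ => X, fun k _ => Or.inl rfl, rfl, fun k _ => h⟩
  | const a h => exact ⟨0, fun _ => C a, fun k _ => Or.inr (Or.inl ⟨a, rfl⟩), rfl, fun k _ => h⟩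
  | add f g _ _ h ihf ihg =>
    obtain ⟨L₁, g₁, a1, rfl, a3⟩ := ihf
    obtain ⟨L₂, g₂, b1, rfl, b3⟩ := ihg
    exact ⟨_, _, cat_spec a1 b1 a3 b3 (Or.inl rfl) h⟩
  | mul f g _ _ h ihf ihg =>
    obtain ⟨L₁, g₁, a1, rfl, a3⟩ := ihf
    obtain ⟨L₂, g₂, b1, rfl, b3⟩ := ihg
    exact ⟨_, _, cat_spec a1 b1 a3 b3 (Or.inr (Or.inr rfl)) h⟩

/-- the height of the value of a small polynomial -/
lemma ht_aeval {b m D β : ℕ} (p : ℤ[X]) (hp : p.natDegree ≤ D) (hc : ∀ i, |p.coeff i| ≤ 2 ^ b)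
    (hβ : D + b + m * D ≤ β) (z : ℚ) (hz : Ht m z) : Ht β (aeval z p) := by
  have h1 := hom_eq p D hp z
  have hsum : ∑ i ∈ range (D + 1), (p.coeff i).natAbs ≤ (D + 1) * 2 ^ b := by
    calc ∑ i ∈ range (D + 1), (p.coeff i).natAbs ≤ ∑ i ∈ range (D + 1), 2 ^ b := by
          refine Finset.sum_le_sum fun i _ => ?_
          have := hc i
          zify
          exact this
      _ = (D + 1) * 2 ^ b := by rw [Finset.sum_const, card_range, smul_eq_mul]
  have h2 := hom_le p D z.num z.den (2 ^ m) hz.1 (by rw [Int.natAbs_natCast]; exact hz.2) _ hsum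
  set A := hom p D z.num z.den with hA
  have hv : (0 : ℚ) < (z.den : ℚ) ^ D := by
    have := z.den_pos
    positivity
  have hD : D + 1 ≤ 2 ^ D := Nat.lt_two_pow_self
  have hval : aeval z p = Rat.divInt A ((z.den : ℤ) ^ D) := by
    rw [Rat.divInt_eq_div, h1]
    push_cast
    field_simp
  have hden0 : ((z.den : ℤ) ^ D) ≠ 0 := by
    have := z.den_pos
    positivity
  constructor
  · have h3 := Rat.num_dvd A hden0
    rw [← hval] at h3
    have h4 : (aeval z p).num.natAbs ≤ A.natAbs := by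
      by_cases hA0 : A = 0
      · rw [hA0] at hval
        rw [hval]
        simp
      · exact Nat.le_of_dvd (Int.natAbs_pos.2 hA0) (Int.natAbs_dvd_natAbs.2 h3)
    calc (aeval z p).num.natAbs ≤ A.natAbs := h4
      _ ≤ (D + 1) * 2 ^ b * (2 ^ m) ^ D := h2
      _ ≤ 2 ^ D * 2 ^ b * (2 ^ m) ^ D := by gcongr
      _ = 2 ^ (D + b + m * D) := by rw [← pow_mul, pow_add, pow_add]
      _ ≤ 2 ^ β := Nat.pow_le_pow_right (by norm_num) hβ
  · have h3 := Rat.den_dvd A ((z.den : ℤ) ^ D)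
    rw [← hval] at h3
    have h4 : (aeval z p).den ≤ z.den ^ D := by
      have h5 : (aeval z p).den ∣ z.den ^ D := by exact_mod_cast h3
      exact Nat.le_of_dvd (by have := z.den_pos; positivity) h5
    calc (aeval z p).den ≤ z.den ^ D := h4
      _ ≤ (2 ^ m) ^ D := Nat.pow_le_pow_left hz.2 _
      _ = 2 ^ (m * D) := by rw [← pow_mul]
      _ ≤ 2 ^ β := Nat.pow_le_pow_right (by norm_num) (by omega)

lemma coeff_divX_le {b : ℕ} {p : ℤ[X]} (hc : ∀ i, |p.coeff i| ≤ 2 ^ b) (i : ℕ) :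
    |(divX p).coeff i| ≤ 2 ^ b := by
  rw [coeff_divX]
  exact hc _

lemma natDegree_divX_le (p : ℤ[X]) (N : ℕ) (hp : p.natDegree ≤ N + 1) :
    (divX p).natDegree ≤ N := by
  rw [natDegree_le_iff_coeff_eq_zero]
  intro k hk
  rw [coeff_divX]
  apply coeff_eq_zero_of_natDegree_lt
  omega

/-- Horner's scheme -/
lemma form_comp {b m D β : ℕ} {S : Finset ℚ} {f : ℤ[X]}
    (hβ : D + b + m * D ≤ β) (hfS : ∀ x ∈ S, Ht m (aeval x f))
    (hf : Form (fun u => ∀ x ∈ S, Ht β (aeval x u)) f) :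
    ∀ N ≤ D, ∀ p : ℤ[X], p.natDegree ≤ N → (∀ i, |p.coeff i| ≤ 2 ^ b) →
      Form (fun u => ∀ x ∈ S, Ht β (aeval x u)) (p.comp f) := by
  have key : ∀ p : ℤ[X], p.natDegree ≤ D → (∀ i, |p.coeff i| ≤ 2 ^ b) →
      ∀ x ∈ S, Ht β (aeval x (p.comp f)) := by
    intro p hp hc x hx
    rw [aeval_comp]
    exact ht_aeval p hp hc hβ _ (hfS x hx)
  have keyC : ∀ a : ℤ, |a| ≤ 2 ^ b → Form (fun u => ∀ x ∈ S, Ht β (aeval x u)) (C a) := by
    intro a ha
    apply Form.const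
    have h1 := key (C a) (by simp) (by
      intro i
      rw [coeff_C]
      split_ifs
      · exact ha
      · simp)
    rwa [C_comp] at h1
  intro N
  induction N with
  | zero =>
    intro _ p hp hc
    have h1 : p = C (p.coeff 0) := eq_C_of_natDegree_le_zero hp
    rw [h1, C_comp]
    exact keyC _ (hc 0)
  | succ N ih =>
    intro hN p hp hc
    have h1 : divX p * X + C (p.coeff 0) = p := divX_mul_X_add p
    have h2 := ih (by omega) (divX p) (natDegree_divX_le p N hp) (coeff_divX_le hc)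
    have h3 : (divX p * X).natDegree ≤ D := by
      refine (natDegree_mul_le).trans ?_
      have := natDegree_divX_le p N hp
      rw [natDegree_X]
      omega
    have h4 : ∀ i, |(divX p * X).coeff i| ≤ 2 ^ b := by
      intro i
      cases i with
      | zero => simp
      | succ i =>
        rw [coeff_mul_X]
        exact coeff_divX_le hc i
    have h5 := key (divX p * X) h3 h4
    have h6 := key p (by omega) hc
    rw [mul_comp, X_comp] at h5
    have h7 : p.comp f = (divX p).comp f * f + C (p.coeff 0) := by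
      conv_lhs => rw [← h1]
      rw [add_comp, mul_comp, X_comp, C_comp]
    rw [h7]
    rw [h7] at h6
    exact Form.add _ _ (Form.mul _ _ h2 hf h5) (keyC _ (hc 0)) h6

lemma natDegree_F {h : ℕ → ℤ[X]} {n : ℕ} (hd : ∀ j < n, 2 ≤ (h j).natDegree) :
    ∀ k ≤ n, 1 ≤ (F h k).natDegree := by
  intro k
  induction k with
  | zero => intro _; rw [F, natDegree_X]
  | succ k ih =>
    intro hk
    rw [F, natDegree_comp]
    have h1 := hd k (by omega)
    have h2 := ih (by omega)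
    nlinarith

/-- roots of a small polynomial among the values of a composition of small polynomials -/
theorem count {K : ℕ} (hK : ∀ (L b : ℕ) (g : ℕ → ℤ[X]) (S : Finset ℚ), IsProg L g →
      g L ≠ 0 → 1 ≤ b → (∀ x ∈ S, aeval x (g L) = 0) →
      (∀ x ∈ S, ∀ k ≤ L, (aeval x (g k)).num.natAbs ≤ 2 ^ b ∧ (aeval x (g k)).den ≤ 2 ^ b) →
      S.card ≤ K * (b * (Nat.log 2 b + 1)))
    {b m D β j : ℕ} (hβ : D + b + m * D ≤ β) (hm : m ≤ β) (hβ1 : 1 ≤ β) {h : ℕ → ℤ[X]}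
    (hd : ∀ i < j, 2 ≤ (h i).natDegree) (hdD : ∀ i < j, (h i).natDegree ≤ D)
    (hc : ∀ i < j, ∀ l, |(h i).coeff l| ≤ 2 ^ b) {S : Finset ℚ}
    (hS : ∀ x ∈ S, ∀ k ≤ j, Ht m (aeval x (F h k))) (p : ℤ[X]) (hp : p ≠ 0)
    (hpD : p.natDegree ≤ D) (hpc : ∀ l, |p.coeff l| ≤ 2 ^ b)
    (hroot : ∀ x ∈ S, aeval (aeval x (F h j)) p = 0) :
    S.card ≤ K * (β * (Nat.log 2 β + 1)) := by
  have mono : ∀ z : ℚ, Ht m z → Ht β z := by
    intro z hz
    have := Nat.pow_le_pow_right (n := 2) (by norm_num) hm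
    exact ⟨hz.1.trans this, hz.2.trans this⟩
  have hF : ∀ k ≤ j, Form (fun u => ∀ x ∈ S, Ht β (aeval x u)) (F h k) := by
    intro k
    induction k with
    | zero =>
      intro _
      rw [F]
      apply Form.var
      intro x hx
      have := hS x hx 0 (by omega)
      rw [F] at this
      exact mono _ this
    | succ k ih =>
      intro hk
      rw [F]
      exact form_comp hβ (fun x hx => hS x hx k (by omega)) (ih (by omega)) D le_rfl (h k)
        (hdD k (by omega)) (hc k (by omega))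
  have h1 := form_comp hβ (fun x hx => hS x hx j le_rfl) (hF j le_rfl) D le_rfl p hpD hpc
  obtain ⟨L, g, hg1, hg2, hg3⟩ := form_prog h1
  have hdeg : 1 ≤ (F h j).natDegree := natDegree_F (n := j) hd j le_rfl
  refine hK L β g S hg1 ?_ hβ1 ?_ ?_
  · rw [hg2]
    intro h0
    rcases comp_eq_zero_iff.1 h0 with h2 | ⟨-, h2⟩
    · exact hp h2
    · rw [h2, natDegree_C] at hdeg
      omega
  · intro x hx
    rw [hg2, aeval_comp]
    exact hroot x hx
  · intro x hx k hk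
    exact hg3 k hk x hx

end Pool.Agent.TH835.Tau
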