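import Mathlib

set_option autoImplicit false

/-!
A polynomial with few terms and large degree has a large gap near the top.
-/

namespace Pool.Agent.TH835.Tau

open Polynomial Finset

lemma coeff_sum_range (f : ℕ → ℤ) (N k : ℕ) :
    (∑ i ∈ range N, C (f i) * X ^ i : ℤ[X]).coeff k = if k < N then f k else 0 := by
  rw [finsetSum_coeff]
  simp only [coeff_C_mul_X_pow]
  by_cases hk : k < N
  · rw [if_pos hk, Finset.sum_eq_single k]
    · simp
    · intro i _ hik
      rw [if_neg (fun h => hik h.symm)]
    · intro h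
      exact absurd (mem_range.2 hk) h
  · rw [if_neg hk]
    refine Finset.sum_eq_zero fun i hi => ?_
    rw [if_neg]
    rintro rfl
    exact hk (mem_range.1 hi)

lemma sum_natAbs_le {b : ℕ} (p : ℤ[X]) (t N : ℕ) (hp : p.support.card ≤ t)
    (hc : ∀ i, |p.coeff i| ≤ 2 ^ b) : ∑ i ∈ range N, (p.coeff i).natAbs ≤ t * 2 ^ b := by
  calc ∑ i ∈ range N, (p.coeff i).natAbs ≤ ∑ i ∈ p.support, (p.coeff i).natAbs := by
        refine Finset.sum_le_sum_of_ne_zero fun i _ hi => ?_
        rw [mem_support_iff]
        intro h0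
        rw [h0] at hi
        exact hi rfl
    _ ≤ ∑ i ∈ p.support, 2 ^ b := by
        refine Finset.sum_le_sum fun i _ => ?_
        have := hc i
        zify
        exact this
    _ = p.support.card * 2 ^ b := by rw [Finset.sum_const, smul_eq_mul]
    _ ≤ t * 2 ^ b := Nat.mul_le_mul_right _ hp

lemma block (h : ℤ[X]) (t g : ℕ) (hg : 1 ≤ g) (ht : h.support.card ≤ t)
    (hd : (t + 1) * g < h.natDegree) :
    ∃ i ≤ t, ∀ k, h.natDegree < k + (i + 1) * g → k + i * g ≤ h.natDegree → h.coeff k = 0 := by
  by_contra hcon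
  push Not at hcon
  choose! f hf using hcon
  have hle : (range (t + 1)).card ≤ h.support.card := by
    refine Finset.card_le_card_of_injOn f ?_ ?_
    · intro i hi
      have hi' : i ≤ t := by
        have := mem_range.1 (Finset.mem_coe.1 hi)
        omega
      exact Finset.mem_coe.2 (mem_support_iff.2 (hf i hi').2.2)
    · intro i hi j hj hij
      have hi' : i ≤ t := by
        have := mem_range.1 (Finset.mem_coe.1 hi)
        omega
      have hj' : j ≤ t := by
        have := mem_range.1 (Finset.mem_coe.1 hj)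
        omega
      obtain ⟨a1, a2, -⟩ := hf i hi'
      obtain ⟨b1, b2, -⟩ := hf j hj'
      rw [hij] at a1 a2
      have h1 : i * g < (j + 1) * g := by omega
      have h2 : j * g < (i + 1) * g := by omega
      have h3 := Nat.lt_of_mul_lt_mul_right h1
      have h4 := Nat.lt_of_mul_lt_mul_right h2
      omega
  rw [card_range] at hle
  omega

theorem split {b : ℕ} (h : ℤ[X]) (t g : ℕ) (hg : 1 ≤ g) (ht : h.support.card ≤ t)
    (hc : ∀ i, |h.coeff i| ≤ 2 ^ b) (hd : (t + 1) * g < h.natDegree) :
    ∃ (e : ℕ) (q r : ℤ[X]), h = X ^ e * q + r ∧ q ≠ 0 ∧ q.natDegree ≤ (t + 1) * g ∧ g ≤ e ∧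
      r.natDegree ≤ e - g ∧ (∀ i, |q.coeff i| ≤ 2 ^ b) ∧
      (∀ N, ∑ i ∈ range N, (q.coeff i).natAbs ≤ t * 2 ^ b) ∧
      (∀ N, ∑ i ∈ range N, (r.coeff i).natAbs ≤ t * 2 ^ b) := by
  obtain ⟨i, hi, hblock⟩ := block h t g hg ht hd
  set d := h.natDegree with hdd
  have hit : i * g ≤ t * g := Nat.mul_le_mul_right _ hi
  have hs : (t + 1) * g = t * g + g := by ring
  have hs' : (i + 1) * g = i * g + g := by ring
  have hig : i * g + g < d := by omega
  set e := d - i * g with he
  set q : ℤ[X] := ∑ k ∈ range (d - e + 1), C (h.coeff (k + e)) * X ^ k with hq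
  set r : ℤ[X] := ∑ k ∈ range e, C (h.coeff k) * X ^ k with hr
  have hqc : ∀ k, q.coeff k = h.coeff (k + e) := by
    intro k
    rw [hq, coeff_sum_range (fun k => h.coeff (k + e))]
    split_ifs with hk
    · rfl
    · symm
      apply coeff_eq_zero_of_natDegree_lt
      omega
  have hrc : ∀ k, r.coeff k = if k < e then h.coeff k else 0 := by
    intro k
    rw [hr, coeff_sum_range]
  have hh : h = X ^ e * q + r := by
    ext k
    rw [coeff_add, coeff_X_pow_mul', hrc]
    by_cases hk : e ≤ k
    · rw [if_pos hk, hqc, if_neg (by omega), Nat.sub_add_cancel hk, add_zero]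
    · rw [if_neg hk, if_pos (by omega), zero_add]
  have hqs : q.support.card ≤ t := by
    refine le_trans ?_ ht
    refine Finset.card_le_card_of_injOn (fun k => k + e) ?_ ?_
    · intro k hk
      have := mem_support_iff.1 (Finset.mem_coe.1 hk)
      rw [hqc] at this
      exact Finset.mem_coe.2 (mem_support_iff.2 this)
    · intro k _ l _ hkl
      exact Nat.add_right_cancel hkl
  have hrs : r.support.card ≤ t := by
    refine le_trans (Finset.card_le_card ?_) ht
    intro k hk
    have := mem_support_iff.1 hk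
    rw [hrc] at this
    split_ifs at this with h1
    · exact mem_support_iff.2 this
    · exact absurd rfl this
  have hqb : ∀ k, |q.coeff k| ≤ 2 ^ b := by
    intro k
    rw [hqc]
    exact hc _
  have hrb : ∀ k, |r.coeff k| ≤ 2 ^ b := by
    intro k
    rw [hrc]
    split_ifs
    · exact hc _
    · simp
  refine ⟨e, q, r, hh, ?_, ?_, by omega, ?_, hqb, fun N => sum_natAbs_le q t N hqs hqb,
    fun N => sum_natAbs_le r t N hrs hrb⟩
  · intro h0
    have h1 := hqc (d - e)
    rw [h0, coeff_zero, Nat.sub_add_cancel (by omega)] at h1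
    have hne : h ≠ 0 := by
      intro h2
      rw [h2, natDegree_zero] at hdd
      omega
    exact (leadingCoeff_ne_zero.2 hne) h1.symm
  · rw [natDegree_le_iff_coeff_eq_zero]
    intro k hk
    rw [hqc]
    apply coeff_eq_zero_of_natDegree_lt
    omega
  · rw [natDegree_le_iff_coeff_eq_zero]
    intro k hk
    rw [hrc]
    split_ifs with h1
    · apply hblock <;> omega
    · rfl

end Pool.Agent.TH835.Tau
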