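import Mathlib
import Pool.Agent.TH835.Tau.Prog
import Pool.Agent.TH835.Tau.Split

set_option autoImplicit false

/-!
Rational roots of compositions of sparse polynomials: the bound.
-/

namespace Pool.Agent.TH835.Tau

open Polynomial Finset

lemma num_arith (b t : ℕ) (hb : 1 ≤ b) (ht : 1 ≤ t) :
    7 * b * ((t + 1) * (3 * b + 3 + Nat.log 2 t)) *
      (Nat.log 2 (7 * b * ((t + 1) * (3 * b + 3 + Nat.log 2 t))) + 1) ≤
      840 * (t * b * (b + Nat.log 2 t) * (Nat.log 2 (t * b) + 1)) := by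
  set l := Nat.log 2 t with hl
  have hlt : l ≤ t := Nat.log_le_self 2 t
  have h1 : 7 * b * ((t + 1) * (3 * b + 3 + l)) ≤ 84 * (t * b * (b + l)) := by
    have a1 : t + 1 ≤ 2 * t := by omega
    have a2 : 3 * b + 3 + l ≤ 6 * (b + l) := by omega
    calc 7 * b * ((t + 1) * (3 * b + 3 + l)) ≤ 7 * b * ((2 * t) * (6 * (b + l))) := by
          gcongr
      _ = 84 * (t * b * (b + l)) := by ring
  have h2 : b + l ≤ 2 * (t * b) := by
    have a1 : b ≤ t * b := Nat.le_mul_of_pos_left b ht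
    have a2 : t ≤ t * b := Nat.le_mul_of_pos_right t hb
    omega
  set s := Nat.log 2 (t * b) with hs
  have hpos : t * b ≠ 0 := by positivity
  have h3 : t * b < 2 ^ (s + 1) := Nat.lt_pow_succ_log_self (by norm_num) _
  have h4 : 7 * b * ((t + 1) * (3 * b + 3 + l)) < 2 ^ (2 * s + 10) := by
    calc 7 * b * ((t + 1) * (3 * b + 3 + l)) ≤ 84 * (t * b * (b + l)) := h1
      _ ≤ 84 * (t * b * (2 * (t * b))) := by gcongr
      _ = 168 * (t * b) ^ 2 := by ring
      _ ≤ 168 * (2 ^ (s + 1)) ^ 2 := by gcongr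
      _ < 256 * (2 ^ (s + 1)) ^ 2 := by
          have : 0 < (2 ^ (s + 1)) ^ 2 := by positivity
          omega
      _ = 2 ^ (2 * s + 10) := by ring
  have h5 : Nat.log 2 (7 * b * ((t + 1) * (3 * b + 3 + l))) < 2 * s + 10 :=
    Nat.log_lt_of_lt_pow (by positivity) h4
  calc _ ≤ 84 * (t * b * (b + l)) * (10 * (s + 1)) := by
        apply Nat.mul_le_mul h1
        omega
    _ = 840 * (t * b * (b + l) * (s + 1)) := by ring

lemma small_arith (b t : ℕ) (a w : ℕ) (ha : a ≤ 2 ^ (3 * b + 2)) (hw : w ≤ 2 ^ (2 * b)) :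
    a + w * (t * 2 ^ b) < 2 ^ (3 * b + 3 + Nat.log 2 t) := by
  have h1 : t < 2 ^ (Nat.log 2 t + 1) := Nat.lt_pow_succ_log_self (by norm_num) _
  set l := Nat.log 2 t with hl
  have hL : 1 ≤ 2 ^ l := Nat.one_le_two_pow
  have hB : 1 ≤ 2 ^ (3 * b) := Nat.one_le_two_pow
  calc a + w * (t * 2 ^ b) ≤ 2 ^ (3 * b + 2) + 2 ^ (2 * b) * (2 ^ (l + 1) * 2 ^ b) := by gcongr
    _ = 2 ^ (3 * b) * (4 + 2 * 2 ^ l) := by ring
    _ < 2 ^ (3 * b) * (8 * 2 ^ l) := by
        apply Nat.mul_lt_mul_of_pos_left _ hB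
        omega
    _ = 2 ^ (3 * b + 3 + l) := by ring

theorem main {K : ℕ} (hK : ∀ (L b : ℕ) (g : ℕ → ℤ[X]) (S : Finset ℚ), IsProg L g →
      g L ≠ 0 → 1 ≤ b → (∀ x ∈ S, aeval x (g L) = 0) →
      (∀ x ∈ S, ∀ k ≤ L, (aeval x (g k)).num.natAbs ≤ 2 ^ b ∧ (aeval x (g k)).den ≤ 2 ^ b) →
      S.card ≤ K * (b * (Nat.log 2 b + 1)))
    (n t b : ℕ) (h : ℕ → ℤ[X]) (ht : 1 ≤ t) (hb : 1 ≤ b) (hd : ∀ j < n, 2 ≤ (h j).natDegree)
    (hs : ∀ j < n, (h j).support.card ≤ t) (hc : ∀ j < n, ∀ i, |(h j).coeff i| ≤ 2 ^ b)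
    (S : Finset ℚ) (hS : ∀ x ∈ S, aeval x (F h n) = 0) :
    S.card ≤ 4 * K * 840 * (t * b * (b + Nat.log 2 t) * (Nat.log 2 (t * b) + 1)) := by
  classical
  set g := 3 * b + 3 + Nat.log 2 t with hg
  set D := (t + 1) * g with hD
  set β := 7 * b * D with hβ
  have hD1 : 1 ≤ D := by
    rw [hD]
    have : 1 ≤ g := by omega
    nlinarith
  have hβ1 : 1 ≤ β := by
    rw [hβ]
    nlinarith
  have hmain : D + b + (3 * b + 2) * D ≤ β := by
    rw [hβ]
    nlinarith [Nat.mul_le_mul hb hD1, Nat.mul_le_mul_left b hD1, Nat.mul_le_mul_right D hb]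
  have hm : 3 * b + 2 ≤ β := by
    rw [hβ]
    nlinarith [Nat.mul_le_mul_left b hD1]
  have hnum : β * (Nat.log 2 β + 1) ≤
      840 * (t * b * (b + Nat.log 2 t) * (Nat.log 2 (t * b) + 1)) := num_arith b t hb ht
  have hht : ∀ x ∈ S, ∀ k ≤ n, Ht (3 * b + 2) (aeval x (F h k)) := by
    intro x hx k hk
    obtain ⟨h1, h2⟩ := heights hd hc x (hS x hx) k hk
    exact ⟨h2, h1.trans (Nat.pow_le_pow_right (by norm_num) (by omega))⟩
  have one_bound : ∀ i : ℕ, ∀ c : ℤ, |c| ≤ 1 → |(X + C c : ℤ[X]).coeff i| ≤ 2 ^ b := by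
    intro i c hcc
    have hB : (1 : ℤ) ≤ 2 ^ b := one_le_pow₀ (by norm_num)
    rw [coeff_add, coeff_X, coeff_C]
    by_cases h1 : 1 = i
    · subst h1
      simp [hB]
    · rw [if_neg h1]
      split_ifs
      · rw [zero_add]; exact hcc.trans hB
      · simp
  have fin : ∀ a : ℕ, a ≤ 4 * (K * (β * (Nat.log 2 β + 1))) →
      a ≤ 4 * K * 840 * (t * b * (b + Nat.log 2 t) * (Nat.log 2 (t * b) + 1)) := by
    intro a ha
    calc a ≤ 4 * (K * (β * (Nat.log 2 β + 1))) := ha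
      _ ≤ 4 * (K * (840 * (t * b * (b + Nat.log 2 t) * (Nat.log 2 (t * b) + 1)))) := by gcongr
      _ = _ := by ring
  have app : ∀ j ≤ n, (∀ i < j, (h i).natDegree ≤ D) → ∀ (p : ℤ[X]), p ≠ 0 → p.natDegree ≤ D →
      (∀ l, |p.coeff l| ≤ 2 ^ b) →
      (S.filter (fun x => aeval (aeval x (F h j)) p = 0)).card ≤
        K * (β * (Nat.log 2 β + 1)) := by
    intro j hj hjD p hp hpD hpc
    refine count hK hmain hm hβ1 (fun i hi => hd i (by omega)) hjD (fun i hi => hc i (by omega))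
      (fun x hx k hk => hht x (Finset.mem_filter.1 hx).1 k (by omega)) p hp hpD hpc
      (fun x hx => (Finset.mem_filter.1 hx).2)
  have appc : ∀ j ≤ n, (∀ i < j, (h i).natDegree ≤ D) → ∀ c : ℤ, |c| ≤ 1 →
      (S.filter (fun x => aeval (aeval x (F h j)) (X + C c : ℤ[X]) = 0)).card ≤
        K * (β * (Nat.log 2 β + 1)) := by
    intro j hj hjD c hcc
    refine app j hj hjD _ (X_add_C_ne_zero c) ?_ (fun l => one_bound l c hcc)
    rw [natDegree_X_add_C]
    exact hD1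
  by_cases hall : ∀ j < n, (h j).natDegree ≤ D
  · apply fin
    have h1 := appc n le_rfl hall 0 (by simp)
    have h2 : S.filter (fun x => aeval (aeval x (F h n)) (X + C 0 : ℤ[X]) = 0) = S := by
      apply Finset.filter_true_of_mem
      intro x hx
      rw [hS x hx]
      simp
    rw [h2] at h1
    omega
  · push Not at hall
    obtain ⟨j, ⟨hjn, hjD⟩, hmin⟩ : ∃ j, (j < n ∧ D < (h j).natDegree) ∧
        ∀ i < j, ¬ (i < n ∧ D < (h i).natDegree) :=
      ⟨Nat.find hall, Nat.find_spec hall, fun i hi => Nat.find_min hall hi⟩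
    have hjall : ∀ i < j, (h i).natDegree ≤ D := by
      intro i hi
      by_contra hcon
      exact hmin i hi ⟨by omega, by omega⟩
    obtain ⟨e, q, r, hqr, hq0, hqD, hge, hr, hqc, hWq, hWr⟩ :=
      split (h j) t g (by omega) (hs j hjn) (hc j hjn) hjD
    have hsub : S ⊆ (((S.filter (fun x => aeval (aeval x (F h j)) (X + C 0 : ℤ[X]) = 0)) ∪
        (S.filter (fun x => aeval (aeval x (F h j)) (X + C (-1) : ℤ[X]) = 0))) ∪
        (S.filter (fun x => aeval (aeval x (F h j)) (X + C 1 : ℤ[X]) = 0))) ∪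
        (S.filter (fun x => aeval (aeval x (F h j)) q = 0)) := by
      intro x hx
      simp only [Finset.mem_union, Finset.mem_filter]
      by_cases h0 : aeval x (F h j) = 0
      · exact Or.inl (Or.inl (Or.inl ⟨hx, by rw [h0]; simp⟩))
      by_cases h1 : aeval x (F h j) = 1
      · exact Or.inl (Or.inl (Or.inr ⟨hx, by rw [h1]; simp⟩))
      by_cases h2 : aeval x (F h j) = -1
      · exact Or.inl (Or.inr ⟨hx, by rw [h2]; simp⟩)
      refine Or.inr ⟨hx, ?_⟩
      refine gap q r e g (t * 2 ^ b) hge hr (hWq _) (hWr _) _ h0 h1 h2 ?_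
      rw [← hqr, ← aeval_F_succ]
      obtain ⟨h3, h4⟩ := heights hd hc x (hS x hx) (j + 1) hjn
      exact small_arith b t _ _ h4 h3
    apply fin
    have b1 := appc j hjn.le hjall 0 (by simp)
    have b2 := appc j hjn.le hjall (-1) (by simp)
    have b3 := appc j hjn.le hjall 1 (by simp)
    have b4 := app j hjn.le hjall q hq0 hqD hqc
    have c1 := Finset.card_le_card hsub
    have c2 := Finset.card_union_le
      (((S.filter (fun x => aeval (aeval x (F h j)) (X + C 0 : ℤ[X]) = 0)) ∪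
        (S.filter (fun x => aeval (aeval x (F h j)) (X + C (-1) : ℤ[X]) = 0))) ∪
        (S.filter (fun x => aeval (aeval x (F h j)) (X + C 1 : ℤ[X]) = 0)))
      (S.filter (fun x => aeval (aeval x (F h j)) q = 0))
    have c3 := Finset.card_union_le
      ((S.filter (fun x => aeval (aeval x (F h j)) (X + C 0 : ℤ[X]) = 0)) ∪
        (S.filter (fun x => aeval (aeval x (F h j)) (X + C (-1) : ℤ[X]) = 0)))
        (S.filter (fun x => aeval (aeval x (F h j)) (X + C 1 : ℤ[X]) = 0))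
    have c4 := Finset.card_union_le
      (S.filter (fun x => aeval (aeval x (F h j)) (X + C 0 : ℤ[X]) = 0))
        (S.filter (fun x => aeval (aeval x (F h j)) (X + C (-1) : ℤ[X]) = 0))
    omega

end Pool.Agent.TH835.Tau
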