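import Mathlib
import Pool.Agent.TH835.Tau.Prog
import Pool.Agent.TH835.Tau.Split

set_option autoImplicit false

/-!
Integer roots of polynomials computed without large cancellations.
-/

namespace Pool.Agent.TH835.Tau

open Polynomial Finset

lemma aeval_int (u : ℤ[X]) (x : ℤ) : aeval (x : ℚ) u = ((u.eval x : ℤ) : ℚ) := by
  have h := Polynomial.eval₂_at_intCast (p := u) (Int.castRingHom ℚ) x
  simp only [eq_intCast, Int.cast_id] at h
  rw [aeval_def, ← h]
  rfl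

lemma ht_int {m : ℕ} {a : ℤ} (h : |a| ≤ 2 ^ m) : Ht m (a : ℚ) := by
  constructor
  · rw [Rat.num_intCast]
    zify
    exact h
  · rw [Rat.den_intCast]
    exact Nat.one_le_two_pow

/-- a nonconstant polynomial with small coefficients is small only at small integers -/
lemma small_arg {b : ℕ} {s : ℤ[X]} (h1 : 1 ≤ s.natDegree) (hc : ∀ i, |s.coeff i| ≤ 2 ^ b) (z : ℤ) :
    |z| ≤ |s.eval z| + 2 ^ (b + 2) := by
  have hB : (1 : ℤ) ≤ 2 ^ b := one_le_pow₀ (by norm_num)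
  have hB2 : (2 : ℤ) ^ (b + 2) = 4 * 2 ^ b := by ring
  rw [hB2]
  by_cases hz : |z| < 2 * 2 ^ b + 1
  · have := abs_nonneg (s.eval z)
    linarith
  push Not at hz
  rcases Nat.lt_or_ge s.natDegree 2 with h2 | h2
  · have hd : s.natDegree = 1 := by omega
    have h3 : s.eval z = s.coeff 0 + s.coeff 1 * z := by
      rw [eval_eq_sum_range, hd, Finset.sum_range_succ, Finset.sum_range_one]
      simp
    have h4 : s.coeff 1 ≠ 0 := by
      rw [← hd]
      apply leadingCoeff_ne_zero.2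
      rintro rfl
      simp at hd
    have h5 := Int.one_le_abs h4
    have h6 : |s.coeff 1 * z| ≤ |s.eval z| + |s.coeff 0| := by
      rw [h3]
      have := abs_add_le (s.coeff 0 + s.coeff 1 * z) (-(s.coeff 0))
      rw [abs_neg, add_neg_cancel_comm] at this
      exact this
    rw [abs_mul] at h6
    have h7 := hc 0
    have h8 : |z| ≤ |s.coeff 1| * |z| := le_mul_of_one_le_left (abs_nonneg _) h5
    linarith
  · have h3 := esc h2 hc (z : ℚ) (by
      rw [← Int.cast_abs]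
      exact_mod_cast hz)
    rw [aeval_int, ← Int.cast_abs, ← Int.cast_abs] at h3
    have h4 : |z| ≤ |s.eval z| := by exact_mod_cast h3
    linarith

/-- the gap lemma for integers -/
lemma gap_int (q r : ℤ[X]) (e g W : ℕ) (hg : g ≤ e) (hr : r.natDegree ≤ e - g)
    (hWq : ∑ i ∈ range (q.natDegree + 1), (q.coeff i).natAbs ≤ W)
    (hWr : ∑ i ∈ range (e - g + 1), (r.coeff i).natAbs ≤ W) (z : ℤ) (h0 : z ≠ 0) (h1 : z ≠ 1)
    (h2 : z ≠ -1) (hsmall : ((X ^ e * q + r).eval z).natAbs + W < 2 ^ g) :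
    q.eval z = 0 := by
  have h3 := gap q r e g W hg hr hWq hWr (z : ℚ) (by exact_mod_cast h0) (by exact_mod_cast h1)
    (by exact_mod_cast h2) (by
      rw [aeval_int, Rat.num_intCast, Rat.den_intCast, one_mul]
      exact hsmall)
  rw [aeval_int] at h3
  exact_mod_cast h3

/-- a sparse gate is of small degree, or small values are taken only at the roots of a polynomial of
small degree -/
lemma gate {b t m g D : ℕ} (s : ℤ[X]) (ht : s.support.card ≤ t) (hc : ∀ i, |s.coeff i| ≤ 2 ^ b)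
    (hg1 : 1 ≤ g) (hD : D = (t + 1) * g) (hg : 2 ^ m + t * 2 ^ b < 2 ^ g) :
    s.natDegree ≤ D ∨ ∃ q : ℤ[X], q ≠ 0 ∧ q.natDegree ≤ D ∧ (∀ i, |q.coeff i| ≤ 2 ^ b) ∧
      ∀ z : ℤ, z ≠ 0 → z ≠ 1 → z ≠ -1 → |s.eval z| ≤ 2 ^ m → q.eval z = 0 := by
  rcases Nat.lt_or_ge D s.natDegree with h | h
  · right
    obtain ⟨e, q, r, hqr, hq0, hqD, hge, hr, hqc, hWq, hWr⟩ := split s t g hg1 ht hc (hD ▸ h)
    refine ⟨q, hq0, hD ▸ hqD, hqc, fun z h0 h1 h2 hz => ?_⟩
    refine gap_int q r e g (t * 2 ^ b) hge hr (hWq _) (hWr _) z h0 h1 h2 ?_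
    rw [← hqr]
    have : (s.eval z).natAbs ≤ 2 ^ m := by
      zify
      exact hz
    omega
  · exact Or.inl h

/-- the gates of the programs, in the form used in the proof -/
def Gate (a b D m : ℕ) (g : ℕ → ℤ[X]) (S : Finset ℤ) (E : Finset (ℕ × ℤ[X])) (k : ℕ) : Prop :=
  g k = X ∨ (∃ c : ℤ, g k = C c) ∨ (∃ i < k, ∃ j < k, g k = g i * g j) ∨
  (∃ i < k, ∃ j < k, (g k = g i + g j ∨ g k = g i - g j) ∧
    ∀ x ∈ S, |(g i).eval x| ≤ 2 ^ a * |(g k).eval x| + 2 ^ b ∧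
      |(g j).eval x| ≤ 2 ^ a * |(g k).eval x| + 2 ^ b) ∨
  (∃ i < k, ∃ s : ℤ[X], 1 ≤ s.natDegree ∧ s.natDegree ≤ D ∧ (∀ l, |s.coeff l| ≤ 2 ^ b) ∧
    g k = s.comp (g i)) ∨
  (∃ i < k, ∃ q : ℤ[X], (i, q) ∈ E ∧ (∃ s : ℤ[X], 1 ≤ s.natDegree ∧ g k = s.comp (g i)) ∧
    ∀ x ∈ S, |(g k).eval x| ≤ 2 ^ m → (g i).eval x ≠ 0 → (g i).eval x ≠ 1 → (g i).eval x ≠ -1 →
      q.eval ((g i).eval x) = 0)

/-- bounds for the values needed at step `k` -/
def Bd (a b L k : ℕ) : ℤ := 2 ^ (a * (L - k)) * ((L + 1 - k : ℕ) : ℤ) * 2 ^ (b + 2)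

lemma Bd_step {a b L i k : ℕ} (hik : i < k) (hk : k ≤ L) {y : ℤ} (hy : |y| ≤ Bd a b L k) :
    2 ^ a * |y| + 2 ^ (b + 2) ≤ Bd a b L i := by
  have h1 : (2 : ℤ) ^ a * |y| ≤ 2 ^ a * Bd a b L k := by gcongr
  have h2 : (2 : ℤ) ^ a * Bd a b L k + 2 ^ (b + 2) ≤
      2 ^ (a * (L - k) + a) * (((L + 1 - k : ℕ) : ℤ) + 1) * 2 ^ (b + 2) := by
    unfold Bd
    have h3 : (1 : ℤ) ≤ 2 ^ (a * (L - k) + a) := one_le_pow₀ (by norm_num)
    have h4 : (0 : ℤ) < 2 ^ (b + 2) := by positivity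
    have e1 : (2 : ℤ) ^ a * (2 ^ (a * (L - k)) * ((L + 1 - k : ℕ) : ℤ) * 2 ^ (b + 2)) =
        2 ^ (a * (L - k) + a) * ((L + 1 - k : ℕ) : ℤ) * 2 ^ (b + 2) := by
      rw [pow_add]; ring
    rw [e1]
    nlinarith
  have h5 : (2 : ℤ) ^ (a * (L - k) + a) * (((L + 1 - k : ℕ) : ℤ) + 1) * 2 ^ (b + 2) ≤
      Bd a b L i := by
    unfold Bd
    have h6 : a * (L - k) + a ≤ a * (L - i) := by
      have : L - k + 1 ≤ L - i := by omega
      calc a * (L - k) + a = a * (L - k + 1) := by ring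
        _ ≤ a * (L - i) := Nat.mul_le_mul_left _ this
    have h7 : (2 : ℤ) ^ (a * (L - k) + a) ≤ 2 ^ (a * (L - i)) :=
      pow_le_pow_right₀ (by norm_num) h6
    have h8 : (((L + 1 - k : ℕ) : ℤ) + 1) ≤ ((L + 1 - i : ℕ) : ℤ) := by
      have : L + 1 - k + 1 ≤ L + 1 - i := by omega
      exact_mod_cast this
    gcongr
  linarith

lemma Bd_le {a b L k m : ℕ} (hm : a * L + b + 3 + Nat.log 2 (L + 1) ≤ m) :
    Bd a b L k ≤ 2 ^ m := by
  unfold Bd
  have h1 : L + 1 < 2 ^ (Nat.log 2 (L + 1) + 1) := Nat.lt_pow_succ_log_self (by norm_num) _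
  set l := Nat.log 2 (L + 1) with hl
  have h2 : ((L + 1 - k : ℕ) : ℤ) ≤ 2 ^ (l + 1) := by
    have : L + 1 - k ≤ 2 ^ (l + 1) := by omega
    exact_mod_cast this
  have h3 : (2 : ℤ) ^ (a * (L - k)) ≤ 2 ^ (a * L) :=
    pow_le_pow_right₀ (by norm_num) (Nat.mul_le_mul_left _ (by omega))
  calc (2 : ℤ) ^ (a * (L - k)) * ((L + 1 - k : ℕ) : ℤ) * 2 ^ (b + 2)
      ≤ 2 ^ (a * L) * 2 ^ (l + 1) * 2 ^ (b + 2) := by gcongr
    _ = 2 ^ (a * L + b + 3 + l) := by rw [← pow_add, ← pow_add]; congr 1; ring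
    _ ≤ 2 ^ m := pow_le_pow_right₀ (by norm_num) hm

lemma Bd_low {a b L k : ℕ} (hk : k ≤ L) : 2 ^ (b + 2) ≤ Bd a b L k := by
  unfold Bd
  have h1 : (1 : ℤ) ≤ 2 ^ (a * (L - k)) := one_le_pow₀ (by norm_num)
  have h2 : (1 : ℤ) ≤ ((L + 1 - k : ℕ) : ℤ) := by
    have : 1 ≤ L + 1 - k := by omega
    exact_mod_cast this
  have h3 : (0 : ℤ) < 2 ^ (b + 2) := by positivity
  nlinarith [mul_le_mul h1 h2 (by norm_num) (by linarith)]

/-- the values computed at the points of `S` -/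
def PS (β : ℕ) (S : Finset ℤ) (u : ℤ[X]) : Prop :=
  ∀ y ∈ S.image (Int.cast : ℤ → ℚ), Ht β (aeval y u)

lemma PS_iff {β : ℕ} {S : Finset ℤ} {u : ℤ[X]} (h : ∀ x ∈ S, |u.eval x| ≤ 2 ^ β) :
    PS β S u := by
  intro y hy
  obtain ⟨x, hx, rfl⟩ := Finset.mem_image.1 hy
  rw [aeval_int]
  exact ht_int (h x hx)

theorem unfold_prog {a b D m β L : ℕ} {g : ℕ → ℤ[X]} {S : Finset ℤ} {E : Finset (ℕ × ℤ[X])}
    (hm : a * L + b + 3 + Nat.log 2 (L + 1) ≤ m) (hβ : D + b + m * D ≤ β) (hmβ : m ≤ β)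
    (hgate : ∀ k ≤ L, Gate a b D m g S E k) (hS : S.Nonempty) (k₀ : ℕ) (hk₀ : k₀ ≤ L)
    (hE : ∀ i ≤ L, (i, X + C 0) ∈ E ∧ (i, X + C (-1)) ∈ E ∧ (i, X + C 1) ∈ E)
    (ev : ∀ x ∈ S, ∀ e ∈ E, e.1 < k₀ → 1 ≤ (g e.1).natDegree → e.2.eval ((g e.1).eval x) ≠ 0) :
    ∀ k ≤ k₀, (∀ x ∈ S, |(g k).eval x| ≤ Bd a b L k) → Form (PS β S) (g k) := by
  have ev0 : ∀ x ∈ S, ∀ i < k₀, 1 ≤ (g i).natDegree → (g i).eval x ≠ 0 := by
    intro x hx i hi h1 h2
    refine ev x hx _ (hE i (by omega)).1 hi h1 ?_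
    simp [h2]
  have ev1 : ∀ x ∈ S, ∀ i < k₀, 1 ≤ (g i).natDegree → (g i).eval x ≠ 1 := by
    intro x hx i hi h1 h2
    refine ev x hx _ (hE i (by omega)).2.1 hi h1 ?_
    simp [h2]
  have ev2 : ∀ x ∈ S, ∀ i < k₀, 1 ≤ (g i).natDegree → (g i).eval x ≠ -1 := by
    intro x hx i hi h1 h2
    refine ev x hx _ (hE i (by omega)).2.2 hi h1 ?_
    simp [h2]
  have two_pow : (2 : ℤ) ^ m ≤ 2 ^ β := pow_le_pow_right₀ (by norm_num) hmβ
  intro k
  induction k using Nat.strong_induction_on with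
  | _ k ih =>
    intro hk hb
    have hkL : k ≤ L := hk.trans hk₀
    have hbm : ∀ x ∈ S, |(g k).eval x| ≤ 2 ^ m := fun x hx => (hb x hx).trans (Bd_le hm)
    have hP : PS β S (g k) := PS_iff fun x hx => (hbm x hx).trans two_pow
    by_cases hdeg : (g k).natDegree = 0
    · rw [natDegree_eq_zero] at hdeg
      obtain ⟨c, hc⟩ := hdeg
      rw [← hc] at hP ⊢
      exact Form.const c hP
    have hne : g k ≠ 0 := by
      intro h0
      rw [h0] at hdeg
      simp at hdeg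
    have hnz : ∀ i < k, g i ≠ 0 → ∀ x ∈ S, (g i).eval x ≠ 0 := by
      intro i hi h0 x hx
      by_cases hd : (g i).natDegree = 0
      · obtain ⟨c, hc⟩ := natDegree_eq_zero.1 hd
        rw [← hc, eval_C]
        rintro rfl
        rw [C_0] at hc
        exact h0 hc.symm
      · exact ev0 x hx i (by omega) (by omega)
    have step0 : ∀ i < k, (∀ x ∈ S, |(g i).eval x| ≤ |(g k).eval x| + 2 ^ (b + 2)) →
        ∀ x ∈ S, |(g i).eval x| ≤ Bd a b L i := by
      intro i hi h x hx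
      have h1 := Bd_step hi hkL (hb x hx)
      have h2 := h x hx
      have h3 : |(g k).eval x| ≤ 2 ^ a * |(g k).eval x| :=
        le_mul_of_one_le_left (abs_nonneg _) (one_le_pow₀ (by norm_num))
      linarith
    rcases hgate k hkL with h | ⟨c, h⟩ | ⟨i, hi, j, hj, h⟩ | ⟨i, hi, j, hj, h, hc⟩ |
      ⟨i, hi, s, hs1, hsD, hsc, h⟩ | ⟨i, hi, q, hqE, hs, hq⟩
    · rw [h] at hP ⊢
      exact Form.var hP
    · rw [h] at hP ⊢
      exact Form.const c hP
    · have hi0 : g i ≠ 0 := by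
        intro h0
        rw [h0, zero_mul] at h
        exact hne h
      have hj0 : g j ≠ 0 := by
        intro h0
        rw [h0, mul_zero] at h
        exact hne h
      have hpos : (0 : ℤ) < 2 ^ (b + 2) := by positivity
      have fi := ih i hi (by omega) (step0 i hi (by
        intro x hx
        rw [h, eval_mul, abs_mul]
        have h1 := Int.one_le_abs (hnz j hj hj0 x hx)
        have h2 : |(g i).eval x| ≤ |(g i).eval x| * |(g j).eval x| :=
          le_mul_of_one_le_right (abs_nonneg _) h1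
        linarith))
      have fj := ih j hj (by omega) (step0 j hj (by
        intro x hx
        rw [h, eval_mul, abs_mul]
        have h1 := Int.one_le_abs (hnz i hi hi0 x hx)
        have h2 : |(g j).eval x| ≤ |(g i).eval x| * |(g j).eval x| :=
          le_mul_of_one_le_left (abs_nonneg _) h1
        linarith))
      rw [h] at hP ⊢
      exact Form.mul _ _ fi fj hP
    · have hb2 : (2 : ℤ) ^ b ≤ 2 ^ (b + 2) := pow_le_pow_right₀ (by norm_num) (by omega)
      have bi : ∀ x ∈ S, |(g i).eval x| ≤ Bd a b L i := by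
        intro x hx
        have h1 := Bd_step hi hkL (hb x hx)
        have h2 := (hc x hx).1
        linarith
      have bj : ∀ x ∈ S, |(g j).eval x| ≤ Bd a b L j := by
        intro x hx
        have h1 := Bd_step hj hkL (hb x hx)
        have h2 := (hc x hx).2
        linarith
      have fi := ih i hi (by omega) bi
      have fj := ih j hj (by omega) bj
      rcases h with h | h
      · rw [h] at hP ⊢
        exact Form.add _ _ fi fj hP
      · have h1 : g k = g i + C (-1) * g j := by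
          rw [h, C_neg, C_1]
          ring
        rw [h1] at hP ⊢
        refine Form.add _ _ fi (Form.mul _ _ (Form.const (-1) ?_) fj ?_) hP
        · apply PS_iff
          intro x hx
          rw [eval_C]
          simpa using one_le_pow₀ (M₀ := ℤ) (a := 2) (n := β) (by norm_num)
        · apply PS_iff
          intro x hx
          rw [eval_mul, eval_C, abs_mul, abs_neg, abs_one, one_mul]
          exact ((bj x hx).trans (Bd_le hm)).trans two_pow
    · have bi := step0 i hi (by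
        intro x hx
        have h1 := small_arg hs1 hsc ((g i).eval x)
        rw [h, eval_comp]
        exact h1)
      have fi := ih i hi (by omega) bi
      rw [h]
      refine form_comp hβ ?_ fi D le_rfl s hsD hsc
      intro y hy
      obtain ⟨x, hx, rfl⟩ := Finset.mem_image.1 hy
      rw [aeval_int]
      exact ht_int ((bi x hx).trans (Bd_le hm))
    · exfalso
      have hi1 : 1 ≤ (g i).natDegree := by
        obtain ⟨s, hs1, hs2⟩ := hs
        by_contra hcon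
        have h0 : (g i).natDegree = 0 := by omega
        apply hdeg
        rw [hs2, natDegree_comp, h0, mul_zero]
      obtain ⟨x, hx⟩ := hS
      exact ev x hx (i, q) hqE (by simpa using (show i < k₀ by omega)) hi1
        (hq x hx (hbm x hx) (ev0 x hx i (by omega) hi1) (ev1 x hx i (by omega) hi1)
          (ev2 x hx i (by omega) hi1))

end Pool.Agent.TH835.Tau
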