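import Mathlib
import Pool.Agent.TH835.Tau.Cancel

set_option autoImplicit false

/-!
Integer roots of polynomials computed without large cancellations: counting.
-/

namespace Pool.Agent.TH835.Tau

open Polynomial Finset

lemma Gate.mono {a b D m : ℕ} {g : ℕ → ℤ[X]} {S S' : Finset ℤ} {E : Finset (ℕ × ℤ[X])} {k : ℕ}
    (hS : S' ⊆ S) (h : Gate a b D m g S E k) : Gate a b D m g S' E k := by
  rcases h with h | h | h | ⟨i, hi, j, hj, h, hc⟩ | h | ⟨i, hi, q, h1, h2, h3⟩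
  · exact Or.inl h
  · exact Or.inr (Or.inl h)
  · exact Or.inr (Or.inr (Or.inl h))
  · exact Or.inr (Or.inr (Or.inr (Or.inl ⟨i, hi, j, hj, h, fun x hx => hc x (hS hx)⟩)))
  · exact Or.inr (Or.inr (Or.inr (Or.inr (Or.inl h))))
  · exact Or.inr (Or.inr (Or.inr (Or.inr (Or.inr ⟨i, hi, q, h1, h2, fun x hx => h3 x (hS hx)⟩))))

/-- the bound for the points with a given first event -/
lemma count_event {K : ℕ} (hK : ∀ (L b : ℕ) (g : ℕ → ℤ[X]) (S : Finset ℚ), IsProg L g →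
      g L ≠ 0 → 1 ≤ b → (∀ x ∈ S, aeval x (g L) = 0) →
      (∀ x ∈ S, ∀ k ≤ L, (aeval x (g k)).num.natAbs ≤ 2 ^ b ∧ (aeval x (g k)).den ≤ 2 ^ b) →
      S.card ≤ K * (b * (Nat.log 2 b + 1)))
    {a b D m β L : ℕ} {g : ℕ → ℤ[X]} {S : Finset ℤ} {E : Finset (ℕ × ℤ[X])}
    (hm : a * L + b + 3 + Nat.log 2 (L + 1) ≤ m) (hβ : D + b + m * D ≤ β) (hmβ : m ≤ β)
    (hβ1 : 1 ≤ β)
    (hgate : ∀ k ≤ L, Gate a b D m g S E k)
    (hE : ∀ i ≤ L, (i, X + C 0) ∈ E ∧ (i, X + C (-1)) ∈ E ∧ (i, X + C 1) ∈ E)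
    (k₀ : ℕ) (hk₀ : k₀ ≤ L) (p : ℤ[X]) (hp : p ≠ 0) (hpD : p.natDegree ≤ D)
    (hpc : ∀ l, |p.coeff l| ≤ 2 ^ b) (hdeg : 1 ≤ (g k₀).natDegree)
    (hroot : ∀ x ∈ S, p.eval ((g k₀).eval x) = 0)
    (ev : ∀ x ∈ S, ∀ e ∈ E, e.1 < k₀ → 1 ≤ (g e.1).natDegree → e.2.eval ((g e.1).eval x) ≠ 0) :
    S.card ≤ K * (β * (Nat.log 2 β + 1)) := by
  classical
  rcases S.eq_empty_or_nonempty with hS | hS
  · rw [hS, card_empty]
    exact Nat.zero_le _
  have hp1 : 1 ≤ p.natDegree := by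
    obtain ⟨x, hx⟩ := hS
    by_contra hcon
    obtain ⟨c, hc⟩ := natDegree_eq_zero.1 (show p.natDegree = 0 by omega)
    have h1 := hroot x hx
    rw [← hc, eval_C] at h1
    rw [h1, C_0] at hc
    exact hp hc.symm
  have hbd : ∀ x ∈ S, |(g k₀).eval x| ≤ Bd a b L k₀ := by
    intro x hx
    have h1 := small_arg hp1 hpc ((g k₀).eval x)
    rw [hroot x hx, abs_zero, zero_add] at h1
    exact h1.trans (Bd_low hk₀)
  have h1 := unfold_prog hm hβ hmβ hgate hS k₀ hk₀ hE ev k₀ le_rfl hbd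
  have h2 := form_comp hβ (f := g k₀) (S := S.image (Int.cast : ℤ → ℚ)) (by
    intro y hy
    obtain ⟨x, hx, rfl⟩ := Finset.mem_image.1 hy
    rw [aeval_int]
    exact ht_int ((hbd x hx).trans (Bd_le hm))) h1 D le_rfl p hpD hpc
  obtain ⟨N, G, hG1, hG2, hG3⟩ := form_prog h2
  have hcard : (S.image (Int.cast : ℤ → ℚ)).card = S.card :=
    Finset.card_image_of_injective _ Int.cast_injective
  rw [← hcard]
  refine hK N β G _ hG1 ?_ hβ1 ?_ ?_
  · rw [hG2]
    intro h0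
    rcases comp_eq_zero_iff.1 h0 with h3 | ⟨-, h3⟩
    · exact hp h3
    · rw [h3, natDegree_C] at hdeg
      omega
  · intro y hy
    obtain ⟨x, hx, rfl⟩ := Finset.mem_image.1 hy
    rw [hG2, aeval_int, eval_comp, hroot x hx, Int.cast_zero]
  · intro y hy k hk
    exact hG3 k hk y hy

lemma lin_ok {b : ℕ} (c : ℤ) (hc : |c| ≤ 1) (i : ℕ) : |(X + C c : ℤ[X]).coeff i| ≤ 2 ^ b := by
  have hB : (1 : ℤ) ≤ 2 ^ b := one_le_pow₀ (by norm_num)
  rw [coeff_add, coeff_X, coeff_C]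
  by_cases h1 : 1 = i
  · subst h1
    simp [hB]
  · rw [if_neg h1]
    split_ifs
    · rw [zero_add]; exact hc.trans hB
    · simp

theorem cancel_count {K : ℕ} (hK : ∀ (L b : ℕ) (g : ℕ → ℤ[X]) (S : Finset ℚ), IsProg L g →
      g L ≠ 0 → 1 ≤ b → (∀ x ∈ S, aeval x (g L) = 0) →
      (∀ x ∈ S, ∀ k ≤ L, (aeval x (g k)).num.natAbs ≤ 2 ^ b ∧ (aeval x (g k)).den ≤ 2 ^ b) →
      S.card ≤ K * (b * (Nat.log 2 b + 1)))
    (L t a b m gg D β : ℕ) (hb : 1 ≤ b)
    (hm : m = a * L + b + 3 + Nat.log 2 (L + 1)) (hgg : gg = m + Nat.log 2 t + 1)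
    (hD : D = (t + 1) * gg) (hβ : β = (m + 2) * D)
    (g : ℕ → ℤ[X]) (S : Finset ℤ)
    (hg : ∀ k ≤ L, g k = X ∨ (∃ c : ℤ, g k = C c) ∨ (∃ i < k, ∃ j < k, g k = g i * g j) ∨
      (∃ i < k, ∃ j < k, (g k = g i + g j ∨ g k = g i - g j) ∧
        ∀ x ∈ S, |(g i).eval x| ≤ 2 ^ a * |(g k).eval x| + 2 ^ b ∧
          |(g j).eval x| ≤ 2 ^ a * |(g k).eval x| + 2 ^ b) ∨
      (∃ i < k, ∃ s : ℤ[X], 1 ≤ s.natDegree ∧ s.support.card ≤ t ∧
        (∀ l, |s.coeff l| ≤ 2 ^ b) ∧ g k = s.comp (g i)))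
    (h0 : g L ≠ 0) (hroot : ∀ x ∈ S, (g L).eval x = 0) :
    S.card ≤ 4 * (L + 1) * (K * (β * (Nat.log 2 β + 1))) := by
  classical
  have hD1 : 1 ≤ D := by
    rw [hD]
    have : 1 ≤ gg := by omega
    nlinarith
  have hDb : b ≤ D := by
    rw [hD]
    have : b ≤ gg := by omega
    nlinarith
  have hβ' : D + b + m * D ≤ β := by
    rw [hβ]
    nlinarith
  have hmβ : m ≤ β := by
    rw [hβ]
    nlinarith
  have hβ1 : 1 ≤ β := by
    rw [hβ]
    nlinarith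
  have hgap : 2 ^ m + t * 2 ^ b < 2 ^ gg := by
    have h1 : t < 2 ^ (Nat.log 2 t + 1) := Nat.lt_pow_succ_log_self (by norm_num) _
    set l := Nat.log 2 t with hl
    have hbm : 2 ^ b * 2 ≤ 2 ^ m := by
      rw [← pow_succ]
      exact Nat.pow_le_pow_right (by norm_num) (by omega)
    have hL : 1 ≤ 2 ^ l := Nat.one_le_two_pow
    have hB : 1 ≤ 2 ^ b := Nat.one_le_two_pow
    calc 2 ^ m + t * 2 ^ b < 2 ^ m + 2 ^ (l + 1) * 2 ^ b := by
          apply Nat.add_lt_add_left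
          exact Nat.mul_lt_mul_of_pos_right h1 (by positivity)
      _ = 2 ^ m + 2 ^ l * (2 ^ b * 2) := by ring
      _ ≤ 2 ^ l * 2 ^ m + 2 ^ l * 2 ^ m := by
          apply Nat.add_le_add
          · exact Nat.le_mul_of_pos_left _ (by positivity)
          · exact Nat.mul_le_mul_left _ hbm
      _ = 2 ^ gg := by rw [hgg]; ring
  -- the events
  have key : ∀ k, ∃ e : ℕ × ℤ[X], e.1 ≤ L ∧ e.2 ≠ 0 ∧ e.2.natDegree ≤ D ∧
      (∀ l, |e.2.coeff l| ≤ 2 ^ b) ∧ (k ≤ L → ∀ E : Finset (ℕ × ℤ[X]), e ∈ E →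
        Gate a b D m g S E k) := by
    intro k
    have triv : (k ≤ L → ∀ E : Finset (ℕ × ℤ[X]), Gate a b D m g S E k) →
        ∃ e : ℕ × ℤ[X], e.1 ≤ L ∧ e.2 ≠ 0 ∧ e.2.natDegree ≤ D ∧
          (∀ l, |e.2.coeff l| ≤ 2 ^ b) ∧ (k ≤ L → ∀ E : Finset (ℕ × ℤ[X]), e ∈ E →
            Gate a b D m g S E k) := by
      intro hQ
      refine ⟨(0, X + C 0), Nat.zero_le _, X_add_C_ne_zero 0, ?_, lin_ok 0 (by simp),
        fun h E _ => hQ h E⟩
      rw [natDegree_X_add_C]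
      exact hD1
    by_cases hk : k ≤ L
    · rcases hg k hk with h | h | h | h | ⟨i, hi, s, hs1, hst, hsc, h⟩
      · refine triv ?_
        exact fun _ E => Or.inl h
      · refine triv ?_
        exact fun _ E => Or.inr (Or.inl h)
      · refine triv ?_
        exact fun _ E => Or.inr (Or.inr (Or.inl h))
      · refine triv ?_
        exact fun _ E => Or.inr (Or.inr (Or.inr (Or.inl h)))
      · rcases gate (m := m) (g := gg) (D := D) s hst hsc (by omega) hD hgap with h1 |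
          ⟨q, hq0, hqD, hqc, hq⟩
        · refine triv ?_
          exact fun _ E => Or.inr (Or.inr (Or.inr (Or.inr (Or.inl
            ⟨i, hi, s, hs1, h1, hsc, h⟩))))
        · refine ⟨(i, q), by simpa using (show i ≤ L by omega), hq0, hqD, hqc, ?_⟩
          intro _ E hE
          refine Or.inr (Or.inr (Or.inr (Or.inr (Or.inr ⟨i, hi, q, hE, ⟨s, hs1, h⟩, ?_⟩))))
          intro x hx h2 h3 h4 h5
          refine hq _ h3 h4 h5 ?_
          rw [h, eval_comp] at h2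
          exact h2
    · refine triv ?_
      exact fun h => absurd h hk
  choose ek hek1 hek2 hek3 hek4 hek5 using key
  set E : Finset (ℕ × ℤ[X]) := (((range (L + 1)).image (fun i => (i, (X + C 0 : ℤ[X])))) ∪
    ((range (L + 1)).image (fun i => (i, (X + C (-1) : ℤ[X]))))) ∪
    (((range (L + 1)).image (fun i => (i, (X + C 1 : ℤ[X])))) ∪ ((range (L + 1)).image ek))
    with hEdef
  have hEcard : E.card ≤ 4 * (L + 1) := by
    rw [hEdef]
    have c0 := Finset.card_union_le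
      (((range (L + 1)).image (fun i => (i, (X + C 0 : ℤ[X])))) ∪
        ((range (L + 1)).image (fun i => (i, (X + C (-1) : ℤ[X])))))
      (((range (L + 1)).image (fun i => (i, (X + C 1 : ℤ[X])))) ∪ ((range (L + 1)).image ek))
    have c1 := Finset.card_union_le ((range (L + 1)).image (fun i => (i, (X + C 0 : ℤ[X]))))
        ((range (L + 1)).image (fun i => (i, (X + C (-1) : ℤ[X]))))
    have c2 := Finset.card_union_le ((range (L + 1)).image (fun i => (i, (X + C 1 : ℤ[X]))))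
        ((range (L + 1)).image ek)
    have d1 := Finset.card_image_le (s := range (L + 1)) (f := fun i => (i, (X + C 0 : ℤ[X])))
    have d2 := Finset.card_image_le (s := range (L + 1)) (f := fun i => (i, (X + C (-1) : ℤ[X])))
    have d3 := Finset.card_image_le (s := range (L + 1)) (f := fun i => (i, (X + C 1 : ℤ[X])))
    have d4 := Finset.card_image_le (s := range (L + 1)) (f := ek)
    rw [card_range] at d1 d2 d3 d4
    omega
  have hE3 : ∀ i ≤ L, (i, (X + C 0 : ℤ[X])) ∈ E ∧ (i, (X + C (-1) : ℤ[X])) ∈ E ∧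
      (i, (X + C 1 : ℤ[X])) ∈ E := by
    intro i hi
    have hi' : i ∈ range (L + 1) := mem_range.2 (by omega)
    rw [hEdef]
    simp only [mem_union]
    exact ⟨Or.inl (Or.inl (mem_image_of_mem _ hi')), Or.inl (Or.inr (mem_image_of_mem _ hi')),
      Or.inr (Or.inl (mem_image_of_mem _ hi'))⟩
  have hE4 : ∀ i ≤ L, ek i ∈ E := by
    intro i hi
    have hi' : i ∈ range (L + 1) := mem_range.2 (by omega)
    rw [hEdef]
    simp only [mem_union]
    exact Or.inr (Or.inr (mem_image_of_mem _ hi'))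
  have hEprop : ∀ e ∈ E, e.1 ≤ L ∧ e.2 ≠ 0 ∧ e.2.natDegree ≤ D ∧
      (∀ l, |e.2.coeff l| ≤ 2 ^ b) := by
    intro e he
    rw [hEdef] at he
    simp only [mem_union, mem_image, mem_range] at he
    rcases he with (⟨i, hi, rfl⟩ | ⟨i, hi, rfl⟩) | (⟨i, hi, rfl⟩ | ⟨i, hi, rfl⟩)
    · exact ⟨Nat.lt_succ_iff.1 hi, X_add_C_ne_zero 0, by rw [natDegree_X_add_C]; exact hD1,
        lin_ok 0 (by simp)⟩
    · exact ⟨Nat.lt_succ_iff.1 hi, X_add_C_ne_zero (-1), by rw [natDegree_X_add_C]; exact hD1,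
        lin_ok (-1) (by simp)⟩
    · exact ⟨Nat.lt_succ_iff.1 hi, X_add_C_ne_zero 1, by rw [natDegree_X_add_C]; exact hD1,
        lin_ok 1 (by simp)⟩
    · exact ⟨hek1 i, hek2 i, hek3 i, hek4 i⟩
  have hgate : ∀ k ≤ L, Gate a b D m g S E k := fun k hk => hek5 k hk E (hE4 k hk)
  have hdegL : S.Nonempty → 1 ≤ (g L).natDegree := by
    rintro ⟨x, hx⟩
    by_contra hcon
    obtain ⟨c, hc⟩ := natDegree_eq_zero.1 (show (g L).natDegree = 0 by omega)
    have h1 := hroot x hx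
    rw [← hc, eval_C] at h1
    rw [h1, C_0] at hc
    exact h0 hc.symm
  set Sf : ℕ × ℤ[X] → Finset ℤ := fun e => S.filter (fun x => 1 ≤ (g e.1).natDegree ∧
    e.2.eval ((g e.1).eval x) = 0 ∧ ∀ e' ∈ E, 1 ≤ (g e'.1).natDegree →
      e'.2.eval ((g e'.1).eval x) = 0 → e.1 ≤ e'.1) with hSf
  have hcover : S ⊆ E.biUnion Sf := by
    intro x hx
    have hL1 := hdegL ⟨x, hx⟩
    set A := E.filter (fun e => 1 ≤ (g e.1).natDegree ∧ e.2.eval ((g e.1).eval x) = 0) with hA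
    have hAne : A.Nonempty := by
      refine ⟨(L, X + C 0), ?_⟩
      rw [hA, mem_filter]
      refine ⟨(hE3 L le_rfl).1, hL1, ?_⟩
      simp [hroot x hx]
    obtain ⟨e, heA, hmin⟩ := Finset.exists_min_image A (fun e => e.1) hAne
    rw [hA, mem_filter] at heA
    rw [mem_biUnion]
    refine ⟨e, heA.1, ?_⟩
    rw [hSf]
    simp only [mem_filter]
    refine ⟨hx, heA.2.1, heA.2.2, fun e' he' h1 h2 => ?_⟩
    exact hmin e' (by rw [hA, mem_filter]; exact ⟨he', h1, h2⟩)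
  have hone : ∀ e ∈ E, (Sf e).card ≤ K * (β * (Nat.log 2 β + 1)) := by
    intro e he
    obtain ⟨he1, he2, he3, he4⟩ := hEprop e he
    rcases (Sf e).eq_empty_or_nonempty with hS | ⟨x₀, hx₀⟩
    · rw [hS, card_empty]
      exact Nat.zero_le _
    have hsub : Sf e ⊆ S := Finset.filter_subset _ _
    have hmem : ∀ x ∈ Sf e, 1 ≤ (g e.1).natDegree ∧
      e.2.eval ((g e.1).eval x) = 0 ∧ ∀ e' ∈ E, 1 ≤ (g e'.1).natDegree →
        e'.2.eval ((g e'.1).eval x) = 0 → e.1 ≤ e'.1 := by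
      intro x hx
      rw [hSf] at hx
      simp only [mem_filter] at hx
      exact hx.2
    refine count_event hK hm.ge hβ' hmβ hβ1 (fun k hk => (hgate k hk).mono hsub) hE3 e.1 he1
      e.2 he2 he3 he4 (hmem x₀ hx₀).1 (fun x hx => (hmem x hx).2.1) ?_
    intro x hx e' he' h1 h2 h3
    have := (hmem x hx).2.2 e' he' h2 h3
    omega
  calc S.card ≤ (E.biUnion Sf).card := Finset.card_le_card hcover
    _ ≤ E.card * (K * (β * (Nat.log 2 β + 1))) := Finset.card_biUnion_le_card_mul _ _ _ hone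
    _ ≤ 4 * (L + 1) * (K * (β * (Nat.log 2 β + 1))) := Nat.mul_le_mul_right _ hEcard

lemma arith2 (L t a b : ℕ) (ht : 1 ≤ t) (hb : 1 ≤ b) (m gg D β u : ℕ)
    (hm : m = a * L + b + 3 + Nat.log 2 (L + 1)) (hgg : gg = m + Nat.log 2 t + 1)
    (hD : D = (t + 1) * gg) (hβ : β = (m + 2) * D)
    (hu : u = a * L + b + Nat.log 2 (t * (L + 1))) :
    β * (Nat.log 2 β + 1) ≤ 480 * (t * u ^ 2 * (Nat.log 2 (t * u) + 1)) := by
  have hlog : Nat.log 2 t + Nat.log 2 (L + 1) ≤ Nat.log 2 (t * (L + 1)) := by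
    apply Nat.le_log_of_pow_le (by norm_num)
    rw [pow_add]
    exact Nat.mul_le_mul (Nat.pow_log_le_self 2 (by omega)) (Nat.pow_log_le_self 2 (by omega))
  have hu1 : 1 ≤ u := by omega
  have h1 : m + 2 ≤ 6 * u := by omega
  have h2 : gg ≤ 5 * u := by omega
  have h3 : t + 1 ≤ 2 * t := by omega
  have h4 : β ≤ 60 * (t * u ^ 2) := by
    rw [hβ, hD]
    calc (m + 2) * ((t + 1) * gg) ≤ (6 * u) * ((2 * t) * (5 * u)) := by gcongr
      _ = 60 * (t * u ^ 2) := by ring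
  set s := Nat.log 2 (t * u) with hs
  have h5 : t * u < 2 ^ (s + 1) := Nat.lt_pow_succ_log_self (by norm_num) _
  have hpos : 1 ≤ t * u := Nat.mul_pos ht hu1
  have h6 : β < 2 ^ (2 * s + 8) := by
    calc β ≤ 60 * (t * u ^ 2) := h4
      _ ≤ 60 * (t * u) ^ 2 := by
          apply Nat.mul_le_mul_left
          rw [mul_pow]
          apply Nat.mul_le_mul_right
          exact Nat.le_self_pow (by norm_num) t
      _ < 64 * (t * u) ^ 2 := by
          have : 0 < (t * u) ^ 2 := by positivity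
          omega
      _ ≤ 64 * (2 ^ (s + 1)) ^ 2 := by gcongr
      _ = 2 ^ (2 * s + 8) := by ring
  have hβ1 : β ≠ 0 := by
    rw [hβ, hD]
    have : 1 ≤ gg := by omega
    positivity
  have h7 : Nat.log 2 β < 2 * s + 8 := Nat.log_lt_of_lt_pow hβ1 h6
  calc β * (Nat.log 2 β + 1) ≤ (60 * (t * u ^ 2)) * (8 * (s + 1)) := by
        apply Nat.mul_le_mul h4
        omega
    _ = 480 * (t * u ^ 2 * (s + 1)) := by ring

end Pool.Agent.TH835.Tau
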